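import Pool.Agent.R227.SA17

/-!
# A sharp isoperimetric inequality for Schiffer's overdetermined problem

If a bounded connected open set `Ω` of the plane, of any topology and with any boundary (only
`interior (closure Ω) = Ω` is assumed), carries a nontrivial solution of (S) and
`lam |Ω| < 3 π j²`, `j = j_{0,1} = 2.4048...` the first zero of `J_0`, then `Ω` is a disc. Since
`j_{1,1}² < 3 j_{0,1}²`, the quantity `lam |Ω|` is minimal exactly for the disc with the radial
eigenfunction `J_0(√lam |x|)`, `√lam r = j_{1,1}`, and there is a gap above this minimum.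

The proof: the zero extension of `u - c` is `C¹` (potential theory); the angular derivative about a
critical point of `u` vanishes there to order `m ≥ 2`; a crossing argument gives `m + 1` nodal
domains, and each has area at least `π j_{0,1}² / lam` by the sharp Faber–Krahn inequality, which is
proved here for arbitrary open sets through polarization of Gaussian kernels.
-/

set_option autoImplicit false

open MeasureTheory

namespace Pool.Agent.Results.MP_83fd13_an.AreaBound

/-- The overdetermined problem (S) in the plane `ℂ`: `-Δu = lam u` in `Ω`, `∂u/∂n = 0` on `∂Ω`,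
`u = c` on `∂Ω` has a nontrivial weak solution `u` for some real constant `c`; `G` is the weak
gradient of `u`, and both boundary conditions are expressed by testing with functions that need not
vanish on `∂Ω`. -/
def Solvable (Ω : Set ℂ) (lam : ℝ) : Prop :=
  ∃ (c : ℝ) (u : ℂ → ℝ) (G : ℂ → ℂ),
    MemLp u 2 (volume.restrict Ω) ∧ MemLp G 2 (volume.restrict Ω) ∧
    (∀ φ : ℂ → ℝ, ContDiff ℝ 1 φ → HasCompactSupport φ → ∀ v : ℂ,
      ∫ x in Ω, (u x - c) * (fderiv ℝ φ x v) = - ∫ x in Ω, @inner ℝ ℂ _ (G x) v * φ x) ∧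
    (∀ φ : ℂ → ℝ, ContDiff ℝ 1 φ → HasCompactSupport φ →
      ∫ x in Ω, fderiv ℝ φ x (G x) = lam * ∫ x in Ω, u x * φ x) ∧
    ¬ (u =ᵐ[volume.restrict Ω] 0)

/-- The Bessel function `J_N`. -/
noncomputable def J (N : ℕ) (t : ℝ) : ℝ :=
  ∑' k : ℕ, (-1) ^ k / ((k.factorial : ℝ) * ((k + N).factorial : ℝ)) * (t / 2) ^ (2 * k + N)

/-- Let `Ω` be a bounded connected open set, equal to the interior of its closure, that carries a
nontrivial solution of (S) for some `lam > 0`, and let `J_0` have no zero in `[0, j)`. If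
`lam |Ω| < 3 π j²`, then `Ω` is a disc, and its radius `r` satisfies `J_1(√lam r) = 0`. -/
theorem result (Ω : Set ℂ) (ho : IsOpen Ω) (hb : Bornology.IsBounded Ω) (hco : IsConnected Ω)
    (hint : interior (closure Ω) = Ω) (lam : ℝ) (hlam : 0 < lam) (hS : Solvable Ω lam)
    (j : ℝ) (hj : 0 < j) (hJ : ∀ t : ℝ, 0 ≤ t → t < j → J 0 t ≠ 0)
    (harea : lam * (volume Ω).toReal < 3 * Real.pi * j ^ 2) :
    ∃ (p : ℂ) (r : ℝ), 0 < r ∧ Ω = Metric.ball p r ∧ J 1 (Real.sqrt lam * r) = 0 := by
  obtain ⟨c, u, G, hu, hG, h1, h2, hu0⟩ := hS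
  have hsol : Pool.Agent.TH298.Sch.Sol Ω lam c u G := ⟨hu, hG, h1, h2⟩
  have hc := hsol.c_ne hb ho.measurableSet hlam hu0
  refine Pool.Agent.R227.SA.main ho hb hco.nonempty hco.isPreconnected hint hlam hc hsol
    (n := 2) le_rfl (Or.inl rfl) hj hJ ?_
  have e : ((2 : ℕ) : ℝ) + 1 = 3 := by norm_num
  rw [e]
  change lam * (volume Ω).toReal < 3 * (Real.pi * j ^ 2)
  linarith

end Pool.Agent.Results.MP_83fd13_an.AreaBound
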