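import Pool.Agent.R227.SA23

/-!
# Long chords in every direction for Schiffer's overdetermined problem

Let a bounded open set `Ω` of the plane, of any topology and with any boundary (only
`interior (closure Ω) = Ω` is assumed), carry a nontrivial solution of (S), and let `L₁`, `L₂` be
upper bounds for the lengths of the segments in `Ω` in two orthogonal directions. Then
`4 π² / L₁² + π² / L₂² ≤ lam`. In particular `Ω` has chords longer than `2 π / √lam` in every
direction. (For the disc with the first radial eigenfunction the diameter is `7.66... / √lam`.)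

The proof: the zero extension `v` of `u - c` is `C¹`; its derivative `f` in the first direction
vanishes off `Ω`, satisfies the Helmholtz equation in `Ω` and has mean value zero on every
component of `Ω ∩ ℓ` for every line `ℓ` of that direction, because `v` vanishes at both ends. The
one-dimensional inequalities on the components give `∫ |∂₁ f|² ≥ (2π/L₁)² ∫ f²` and
`∫ |∂₂ f|² ≥ (π/L₂)² ∫ f²`.
-/

set_option autoImplicit false

open MeasureTheory

namespace Pool.Agent.Results.MP_83fd13_an.ChordBound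

/-- The overdetermined problem (S) in the plane `ℂ`: `-Δu = lam u` in `Ω`, `∂u/∂n = 0` on `∂Ω`,
`u = c` on `∂Ω` has a nontrivial weak solution `u` for some real constant `c`; `G` is the weak
gradient of `u`, and both boundary conditions are expressed by testing with functions that need not
vanish on `∂Ω`. -/
def Solvable (Ω : Set ℂ) (lam : ℝ) : Prop :=
  ∃ (c : ℝ) (u : ℂ → ℝ) (G : ℂ → ℂ),
    MemLp u 2 (volume.restrict Ω) ∧ MemLp G 2 (volume.restrict Ω) ∧
    (∀ φ : ℂ → ℝ, ContDiff ℝ 1 φ → HasCompactSupport φ → ∀ v : ℂ,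
      ∫ x in Ω, (u x - c) * (fderiv ℝ φ x v) = - ∫ x in Ω, @inner ℝ ℂ _ (G x) v * φ x) ∧
    (∀ φ : ℂ → ℝ, ContDiff ℝ 1 φ → HasCompactSupport φ →
      ∫ x in Ω, fderiv ℝ φ x (G x) = lam * ∫ x in Ω, u x * φ x) ∧
    ¬ (u =ᵐ[volume.restrict Ω] 0)

/-- `L` is an upper bound for the lengths of the segments in `Ω` parallel to the unit vector `e`. -/
def ChordsLe (Ω : Set ℂ) (e : ℂ) (L : ℝ) : Prop :=
  ∀ (p : ℂ) (t : ℝ), 0 ≤ t → (∀ s ∈ Set.Icc 0 t, p + (s : ℂ) * e ∈ Ω) → t ≤ L

/-- Let `Ω` be a bounded nonempty open set, equal to the interior of its closure, that carries a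
nontrivial solution of (S) for some `lam > 0`, and let `e` be a unit vector. If no segment in `Ω`
parallel to `e` is longer than `L` and no segment in `Ω` orthogonal to `e` is longer than `H`, then
`(2 π / L)² + (π / H)² ≤ lam`; and `Ω` contains a segment parallel to `e` that is longer than
`2 π / √lam`. -/
theorem result (Ω : Set ℂ) (ho : IsOpen Ω) (hb : Bornology.IsBounded Ω) (hne : Ω.Nonempty)
    (hint : interior (closure Ω) = Ω) (lam : ℝ) (hlam : 0 < lam) (hS : Solvable Ω lam)
    (e : ℂ) (he : ‖e‖ = 1) :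
    (∀ L H : ℝ, ChordsLe Ω e L → ChordsLe Ω (Complex.I * e) H →
      (2 * Real.pi / L) ^ 2 + (Real.pi / H) ^ 2 ≤ lam) ∧
    ∃ (p : ℂ) (t : ℝ), 2 * Real.pi / Real.sqrt lam < t ∧
      ∀ s ∈ Set.Icc 0 t, p + (s : ℂ) * e ∈ Ω := by
  obtain ⟨c, u, G, hu, hG, h1, h2, hu0⟩ := hS
  have hsol : Pool.Agent.TH298.Sch.Sol Ω lam c u G := ⟨hu, hG, h1, h2⟩
  have hc := hsol.c_ne hb ho.measurableSet hlam hu0
  obtain ⟨v, D⟩ := Pool.Agent.R227.SA.dat_of_sol ho hb hint hlam hsol
  have main : ∀ L H : ℝ, ChordsLe Ω e L → ChordsLe Ω (Complex.I * e) H →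
      (2 * Real.pi / L) ^ 2 + (Real.pi / H) ^ 2 ≤ lam :=
    fun L H hL hH => Pool.Agent.R227.SA.chord D ho hb hne hlam hc he hL hH
  refine ⟨main, ?_⟩
  have hpi := Real.pi_pos
  have hs0 : 0 < Real.sqrt lam := Real.sqrt_pos.2 hlam
  by_contra hcon
  push Not at hcon
  have hL : ChordsLe Ω e (2 * Real.pi / Real.sqrt lam) := by
    intro p t ht hseg
    by_contra hlt
    push Not at hlt
    obtain ⟨s, hs, hs2⟩ := hcon p t hlt
    exact hs2 (hseg s hs)
  obtain ⟨C, hC⟩ := hb.exists_norm_le
  have hC0 : 0 ≤ C := by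
    obtain ⟨x, hx⟩ := hne
    exact (norm_nonneg x).trans (hC x hx)
  have hH : ChordsLe Ω (Complex.I * e) (2 * C + 1) := by
    intro p t ht hseg
    have a1 := hC _ (hseg 0 ⟨le_rfl, ht⟩)
    have a2 := hC _ (hseg t ⟨ht, le_rfl⟩)
    have a3 : ‖((t : ℝ) : ℂ) * (Complex.I * e)‖ = t := by
      rw [norm_mul, norm_mul, Complex.norm_I, he, Complex.norm_real, Real.norm_eq_abs,
        abs_of_nonneg ht]
      ring
    have a4 : ((t : ℝ) : ℂ) * (Complex.I * e) =
        (p + (t : ℂ) * (Complex.I * e)) - (p + ((0:ℝ) : ℂ) * (Complex.I * e)) := by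
      push_cast
      ring
    rw [a4] at a3
    have a5 := norm_sub_le (p + (t : ℂ) * (Complex.I * e)) (p + ((0:ℝ) : ℂ) * (Complex.I * e))
    linarith
  have h3 := main _ _ hL hH
  have h4 : (2 * Real.pi / (2 * Real.pi / Real.sqrt lam)) ^ 2 = lam := by
    have : 2 * Real.pi / (2 * Real.pi / Real.sqrt lam) = Real.sqrt lam := by
      field_simp
    rw [this, Real.sq_sqrt hlam.le]
  have h5 : 0 < (Real.pi / (2 * C + 1)) ^ 2 := by positivity
  linarith

end Pool.Agent.Results.MP_83fd13_an.ChordBound
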