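import Pool.Agent.R227.SA17

/-!
# Schiffer's conjecture for domains with an `n`-fold rotational symmetry and small area

Let `n ≥ 3` and let `Ω` be a bounded connected open set of the plane (no regularity, holes
allowed) that is invariant under the rotation by `2π/n` about one of its points. If `Ω` carries a
nontrivial solution of (S) and `lam |Ω| < (n + 1) π j²`, `j = j_{0,1}` the first zero of `J_0`, then
`Ω` is a disc. There is no condition on the circumradius or the shape of `Ω`.
-/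

set_option autoImplicit false

open MeasureTheory

namespace Pool.Agent.Results.MP_83fd13_an.RotationalAreaBound

/-- The overdetermined problem (S) in the plane `ℂ`: `-Δu = lam u` in `Ω`, `∂u/∂n = 0` on `∂Ω`,
`u = c` on `∂Ω` has a nontrivial weak solution `u` for some real constant `c`; `G` is the weak
gradient of `u`, and both boundary conditions are expressed by testing with functions that need not
vanish on `∂Ω`. -/
def Solvable (Ω : Set ℂ) (lam : ℝ) : Prop :=
  ∃ (c : ℝ) (u : ℂ → ℝ) (G : ℂ → ℂ),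
    MemLp u 2 (volume.restrict Ω) ∧ MemLp G 2 (volume.restrict Ω) ∧
    (∀ φ : ℂ → ℝ, ContDiff ℝ 1 φ → HasCompactSupport φ → ∀ v : ℂ,
      ∫ x in Ω, (u x - c) * (fderiv ℝ φ x v) = - ∫ x in Ω, @inner ℝ ℂ _ (G x) v * φ x) ∧
    (∀ φ : ℂ → ℝ, ContDiff ℝ 1 φ → HasCompactSupport φ →
      ∫ x in Ω, fderiv ℝ φ x (G x) = lam * ∫ x in Ω, u x * φ x) ∧
    ¬ (u =ᵐ[volume.restrict Ω] 0)

/-- The Bessel function `J_N`. -/
noncomputable def J (N : ℕ) (t : ℝ) : ℝ :=
  ∑' k : ℕ, (-1) ^ k / ((k.factorial : ℝ) * ((k + N).factorial : ℝ)) * (t / 2) ^ (2 * k + N)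

/-- Let `n ≥ 3`, let `Ω` be a bounded connected open set, equal to the interior of its closure, that
contains `p` and is mapped into itself by the rotation by `2π/n` about `p`. Let (S) have a
nontrivial solution on `Ω` for some `lam > 0`, and let `J_0` have no zero in `[0, j)`. If
`lam |Ω| < (n + 1) π j²`, then `Ω` is a disc, and its radius `r` satisfies `J_1(√lam r) = 0`. -/
theorem result (Ω : Set ℂ) (ho : IsOpen Ω) (hb : Bornology.IsBounded Ω) (hco : IsConnected Ω)
    (hint : interior (closure Ω) = Ω) (lam : ℝ) (hlam : 0 < lam) (hS : Solvable Ω lam)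
    (n : ℕ) (hn : 3 ≤ n) (p : ℂ) (hp : p ∈ Ω)
    (hsym : ∀ z ∈ Ω, p + Complex.exp (2 * Real.pi * Complex.I / n) * (z - p) ∈ Ω)
    (j : ℝ) (hj : 0 < j) (hJ : ∀ t : ℝ, 0 ≤ t → t < j → J 0 t ≠ 0)
    (harea : lam * (volume Ω).toReal < (n + 1) * Real.pi * j ^ 2) :
    ∃ (q : ℂ) (r : ℝ), 0 < r ∧ Ω = Metric.ball q r ∧ J 1 (Real.sqrt lam * r) = 0 := by
  obtain ⟨c, u, G, hu, hG, h1, h2, hu0⟩ := hS
  have hsol : Pool.Agent.TH298.Sch.Sol Ω lam c u G := ⟨hu, hG, h1, h2⟩
  have hc := hsol.c_ne hb ho.measurableSet hlam hu0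
  have he : Complex.exp (2 * Real.pi * Complex.I / n) =
      Pool.Agent.TH298.Sch.er (2 * Real.pi / n) := by
    rw [Pool.Agent.TH298.Sch.er_exp]
    congr 1
    push_cast
    ring
  refine Pool.Agent.R227.SA.main ho hb hco.nonempty hco.isPreconnected hint hlam hc hsol
    (n := n) (by omega) (Or.inr ⟨p, hp, fun z hz => ?_⟩) hj hJ ?_
  · rw [← he]
    exact hsym z hz
  · change lam * (volume Ω).toReal < ((n : ℝ) + 1) * (Real.pi * j ^ 2)
    linarith

end Pool.Agent.Results.MP_83fd13_an.RotationalAreaBound
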